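import Mathlib
import Pool.Agent.Helper87.TC.Lib

set_option autoImplicit false

namespace Pool.Agent.Helper87.TC

open MvPolynomial Pool.Agent.Helper48.VMRT Pool.Agent.Helper87.VM

theorem tand_closure (k : Subfield ℂ) (X : Set ℂ) (x : ℂ) :
    x ∈ (AlgebraicIndependent.matroid k ℂ).closure X ↔ IsAlgebraic (Algebra.adjoin k X) x := by
  rw [AlgebraicIndependent.matroid_closure_eq]
  exact Iff.rfl

/-- The field of the elements algebraic over `k(X)`. -/
noncomputable def tandK (k : Subfield ℂ) (X : Set ℂ) : Subfield ℂ where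
  carrier := {x | IsAlgebraic (Algebra.adjoin k X) x}
  mul_mem' := fun ha hb => IsAlgebraic.mul ha hb
  one_mem' := isAlgebraic_one
  add_mem' := fun ha hb => IsAlgebraic.add ha hb
  zero_mem' := isAlgebraic_zero
  neg_mem' := fun ha => IsAlgebraic.neg ha
  inv_mem' := fun _ ha => IsAlgebraic.inv_iff.2 ha

theorem tand_mem (k : Subfield ℂ) (X : Set ℂ) (x : ℂ) :
    x ∈ (AlgebraicIndependent.matroid k ℂ).closure X ↔ x ∈ tandK k X :=
  tand_closure k X x

theorem tand_sub (k : Subfield ℂ) (X : Set ℂ) : X ⊆ tandK k X := by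
  intro x hx
  have : IsAlgebraic (Algebra.adjoin k X)
      (algebraMap (Algebra.adjoin k X) ℂ ⟨x, Algebra.subset_adjoin hx⟩) := isAlgebraic_algebraMap _
  exact this

/-- values of polynomials with coefficients in `k` -/
theorem tand_eval (k : Subfield ℂ) {σ : Type} (z : σ → ℂ) (p : MvPolynomial σ ℂ)
    (hp : ∀ c ∈ p.coeffs, c ∈ k) : ∃ p' : MvPolynomial σ k, map k.subtype p' = p ∧
      eval z p = aeval z p' := by
  have h1 : p ∈ Set.range (map k.subtype) := by
    rw [mem_range_map_iff_coeffs_subset]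
    intro c hc
    exact ⟨⟨c, hp c hc⟩, rfl⟩
  obtain ⟨p', rfl⟩ := h1
  refine ⟨p', rfl, ?_⟩
  rw [eval_map]
  rfl

theorem tand_val (k : Subfield ℂ) {σ : Type} (z : σ → ℂ) (p : MvPolynomial σ ℂ)
    (hp : ∀ c ∈ p.coeffs, c ∈ k) (X : Set ℂ) (hX : Set.range z ⊆ X) : eval z p ∈ tandK k X := by
  obtain ⟨p', _, h2⟩ := tand_eval k z p hp
  rw [h2]
  have h3 : aeval z p' ∈ Algebra.adjoin k X := by
    have h4 : aeval z p' ∈ Algebra.adjoin k (Set.range z) := by
      rw [Algebra.adjoin_range_eq_range_aeval]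
      exact ⟨p', rfl⟩
    exact Algebra.adjoin_mono hX h4
  exact (isAlgebraic_algebraMap (⟨_, h3⟩ : Algebra.adjoin k X))

/-- `ℂ` has infinite transcendence degree over a countable subfield. -/
theorem tand_inf (k : Subfield ℂ) (hk : Cardinal.mk k ≤ Cardinal.aleph0) (B : Set ℂ)
    (hB : (AlgebraicIndependent.matroid k ℂ).IsBase B) : B.Infinite := by
  intro hfin
  rw [AlgebraicIndependent.matroid_isBase_iff] at hB
  have h1 := IsAlgClosed.cardinal_le_max_transcendence_basis' ((↑) : B → ℂ) hB
  have h2 : Cardinal.mk B ≤ Cardinal.aleph0 := by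
    have := hfin.countable
    exact Cardinal.mk_le_aleph0_iff.2 this.to_subtype
  have h3 : Cardinal.mk ℂ ≤ Cardinal.aleph0 := h1.trans (by
    simp only [max_le_iff]
    exact ⟨⟨hk, h2⟩, le_rfl⟩)
  rw [Cardinal.mk_complex] at h3
  exact absurd h3 (not_le.2 Cardinal.aleph0_lt_continuum)

/-- rank of the coordinates -/
theorem tand_rank (k : Subfield ℂ) (w m : ℕ) (z : Fin w → ℂ)
    (h : ∀ e : Fin (m + 1) → Fin w, Function.Injective e →
      ∃ P : MvPolynomial (Fin (m + 1)) ℂ, P ≠ 0 ∧ (∀ c ∈ P.coeffs, c ∈ k) ∧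
        eval (fun i => z (e i)) P = 0) :
    (AlgebraicIndependent.matroid k ℂ).eRk (Set.range z) ≤ m := by
  by_contra hcon
  have hcon' : ((m + 1 : ℕ) : ℕ∞) ≤ (AlgebraicIndependent.matroid k ℂ).eRk (Set.range z) := by
    rw [not_le] at hcon
    push_cast
    exact Order.add_one_le_of_lt hcon
  obtain ⟨I, hI, hind, hcard⟩ := Matroid.le_eRk_iff.1 hcon'
  have hfin : I.Finite := Set.finite_of_encard_eq_coe hcard
  have hnc : I.ncard = m + 1 := by
    rw [Set.ncard, hcard]
    rfl
  have : Fintype I := hfin.fintype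
  have hIc : Fintype.card I = m + 1 := by
    rw [← hnc, ← Nat.card_eq_fintype_card, Nat.card_coe_set_eq]
  let f : Fin (m + 1) ≃ I := (Fintype.equivFinOfCardEq hIc).symm
  have hz : ∀ j, ∃ i, z i = (f j : ℂ) := fun j => hI (f j).2
  choose e he using hz
  have hinj : Function.Injective e := by
    intro a b hab
    apply f.injective
    apply Subtype.ext
    rw [← he a, ← he b, hab]
  obtain ⟨P, hP0, hPk, hP⟩ := h e hinj
  obtain ⟨P', rfl, hP'⟩ := tand_eval k (fun i => z (e i)) P hPk
  rw [hP'] at hP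
  have h2 : AlgebraicIndependent k (fun i : I => (i : ℂ)) := by
    rw [AlgebraicIndependent.matroid_indep_iff] at hind
    exact hind
  have h3 : AlgebraicIndependent k (fun j => z (e j)) := by
    have := h2.comp f f.injective
    have e1 : (fun i : I => (i : ℂ)) ∘ f = fun j => z (e j) := by
      funext j
      exact (he j).symm
    rw [e1] at this
    exact this
  have h4 : P' = 0 := by
    apply h3
    rw [hP, map_zero]
  apply hP0
  rw [h4, map_zero]

/-- kernel vectors are determined by few coordinates -/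
theorem tand_ker (w m : ℕ) (ν : Type) [Fintype ν] (A : Matrix ν (Fin w) ℂ)
    (hA : Module.finrank ℂ (LinearMap.ker (Matrix.mulVecLin A)) ≤ m) :
    ∃ J : Finset (Fin w), J.card ≤ m ∧ ∀ (L : Subfield ℂ) (u : Fin w → ℂ),
      (∀ j i, A j i ∈ L) → A.mulVec u = 0 → (∀ i ∈ J, u i ∈ L) → ∀ i, u i ∈ L := by
  classical
  obtain ⟨κ, a, ha, hsp, hli⟩ := exists_linearIndependent' ℂ (fun i : Fin w => fun j => A j i)
  have : Finite κ := Finite.of_injective a ha
  have : Fintype κ := Fintype.ofFinite κ
  have hcard : Fintype.card κ + m ≥ w := by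
    have h1 : Fintype.card κ = Module.finrank ℂ (Submodule.span ℂ
        (Set.range (fun i : Fin w => fun j => A j i))) := by
      rw [← hsp]
      exact (finrank_span_eq_card hli).symm
    have h2 : Module.finrank ℂ (LinearMap.range A.mulVecLin) = Fintype.card κ := by
      rw [Matrix.range_mulVecLin, h1]
      rfl
    have h3 := LinearMap.finrank_range_add_finrank_ker (Matrix.mulVecLin A)
    rw [h2, Module.finrank_fin_fun] at h3
    omega
  refine ⟨Finset.univ \ Finset.univ.image a, ?_, ?_⟩
  · rw [Finset.card_sdiff_of_subset (Finset.subset_univ _), Finset.card_image_of_injective _ ha,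
      Finset.card_univ, Finset.card_univ, Fintype.card_fin]
    omega
  · intro L u hL hu hJ i
    by_cases hi : i ∈ Finset.univ.image a
    swap
    · exact hJ i (Finset.mem_sdiff.2 ⟨Finset.mem_univ _, hi⟩)
    obtain ⟨i0, _, rfl⟩ := Finset.mem_image.1 hi
    let Mx : Matrix ν κ L := Matrix.of fun j l => ⟨A j (a l), hL j (a l)⟩
    have hker : LinearMap.ker Mx.mulVecLin = ⊥ := by
      rw [LinearMap.ker_eq_bot']
      intro c hc
      have h1 : ∑ l, (c l : ℂ) • ((fun i : Fin w => fun j => A j i) ∘ a) l = 0 := by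
        funext j
        have h2 := congrFun hc j
        rw [Matrix.mulVecLin_apply] at h2
        have h3 : ∑ l, Mx j l * c l = 0 := h2
        have h4 := congrArg (fun x : L => (x : ℂ)) h3
        simp only [Finset.sum_apply, Pi.smul_apply, Function.comp, smul_eq_mul, Pi.zero_apply]
        simp only [AddSubmonoidClass.coe_finsetSum, MulMemClass.coe_mul, ZeroMemClass.coe_zero]
          at h4
        rw [← h4]
        exact Finset.sum_congr rfl fun l _ => mul_comm _ _
      have h5 := Fintype.linearIndependent_iff.1 hli _ h1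
      funext l
      exact Subtype.ext (h5 l)
    obtain ⟨g, hg⟩ := LinearMap.exists_leftInverse_of_injective Mx.mulVecLin hker
    let G : Matrix κ ν L := LinearMap.toMatrix' g
    have hG : G * Mx = 1 := by
      have h1 : LinearMap.toMatrix' (g ∘ₗ Mx.mulVecLin) = G * Mx := by
        rw [LinearMap.toMatrix'_comp, ← Matrix.toLin'_apply', LinearMap.toMatrix'_toLin']
      rw [← h1, hg, LinearMap.toMatrix'_id]
    have hGc : ∀ l, ∑ j, (G i0 j : ℂ) * A j (a l) = if i0 = l then 1 else 0 := by
      intro l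
      have h1 := congrFun (congrFun hG i0) l
      rw [Matrix.mul_apply, Matrix.one_apply] at h1
      have h2 := congrArg (fun x : L => (x : ℂ)) h1
      simp only [AddSubmonoidClass.coe_finsetSum, MulMemClass.coe_mul] at h2
      have h3 : ∀ j, ((Mx j l : L) : ℂ) = A j (a l) := fun j => rfl
      simp only [h3] at h2
      rw [h2]
      split_ifs <;> rfl
    have hrow : ∀ j, ∑ l, A j (a l) * u (a l) = -∑ i ∈ Finset.univ \ Finset.univ.image a,
        A j i * u i := by
      intro j
      have h1 : ∑ i, A j i * u i = 0 := congrFun hu j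
      have h2 : ∑ i ∈ Finset.univ.image a, A j i * u i = ∑ l, A j (a l) * u (a l) :=
        Finset.sum_image (fun x _ y _ hxy => ha hxy)
      rw [← h2]
      rw [← Finset.sum_sdiff (Finset.subset_univ (Finset.univ.image a))] at h1
      linear_combination h1
    have hui : u (a i0) = ∑ j, (G i0 j : ℂ) * (-∑ i ∈ Finset.univ \ Finset.univ.image a,
        A j i * u i) := by
      calc u (a i0) = ∑ l, (if i0 = l then 1 else 0) * u (a l) := by simp
        _ = ∑ l, (∑ j, (G i0 j : ℂ) * A j (a l)) * u (a l) := by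
            exact Finset.sum_congr rfl fun l _ => by rw [hGc l]
        _ = ∑ j, (G i0 j : ℂ) * ∑ l, A j (a l) * u (a l) := by
            simp only [Finset.sum_mul, Finset.mul_sum]
            rw [Finset.sum_comm]
            exact Finset.sum_congr rfl fun j _ => Finset.sum_congr rfl fun l _ => by ring
        _ = _ := by
            exact Finset.sum_congr rfl fun j _ => by rw [hrow j]
    rw [hui]
    apply sum_mem
    intro j _
    apply mul_mem (G i0 j).2
    apply neg_mem
    apply sum_mem
    intro i hi'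
    exact mul_mem (hL j i) (hJ i hi')

/-- the main step over a countable subfield -/
theorem tand_main (k : Subfield ℂ) (hk : Cardinal.mk k ≤ Cardinal.aleph0) (w m r : ℕ) (ν : Type)
    [Fintype ν] (Z : Set (Fin w → ℂ)) (A : ν → Fin w → MvPolynomial (Fin w) ℂ)
    (h2m : 2 * m ≤ w) (hcone : ∀ a : ℂ, ∀ z ∈ Z, a • z ∈ Z)
    (hrel : ∀ e : Fin (m + 1) → Fin w, Function.Injective e →
      ∃ P : MvPolynomial (Fin (m + 1)) ℂ, P ≠ 0 ∧ (∀ c ∈ P.coeffs, c ∈ k) ∧
        ∀ z ∈ Z, eval (fun i => z (e i)) P = 0)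
    (hAk : ∀ j i, ∀ c ∈ (A j i).coeffs, c ∈ k) (hA : ∀ j i, HomE r (A j i))
    (hker : ∀ z ∈ Z, z ≠ 0 → Module.finrank ℂ (LinearMap.ker (Matrix.mulVecLin
      (Matrix.of fun (j : ν) (i : Fin w) => eval z (A j i)))) ≤ m) :
    ∃ u : Fin w → ℂ, ∀ z ∈ Z, z ≠ 0 → ∃ j, ∑ i, eval z (A j i) * u i ≠ 0 := by
  set M := AlgebraicIndependent.matroid k ℂ with hM
  obtain ⟨B, hB⟩ := M.exists_isBase
  have hBinf := tand_inf k hk B hB
  let f := hBinf.natEmbedding
  let u : Fin w → ℂ := fun i => (f i : ℂ)
  have huinj : Function.Injective u := by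
    intro a b hab
    have h1 : f a = f b := Subtype.ext hab
    exact Fin.ext (f.injective h1)
  have huB : Set.range u ⊆ B := by
    rintro _ ⟨i, rfl⟩
    exact (f i).2
  have hui : M.Indep (Set.range u) := hB.indep.subset huB
  have hucard : (Set.range u).encard = w := by
    rw [← Set.image_univ, huinj.injOn.encard_image, Set.encard_univ]
    simp
  refine ⟨u, ?_⟩
  intro z hz hz0
  by_contra hcon
  push Not at hcon
  -- choice of t
  have ht : ∃ t : ℂ, t ∉ M.closure (Set.range u ∪ Set.range z) := by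
    by_contra hall
    push Not at hall
    have h1 : B ⊆ M.closure (Set.range u ∪ Set.range z) := fun x _ => hall x
    have h2 := hB.indep.encard_le_eRk_of_subset h1
    rw [Matroid.eRk_closure_eq] at h2
    have h3 := h2.trans (M.eRk_le_encard _)
    have h4 : (Set.range u ∪ Set.range z).Finite :=
      (Set.finite_range u).union (Set.finite_range z)
    have h5 : B.Finite := by
      apply Set.finite_of_encard_le_coe (k := (Set.range u ∪ Set.range z).ncard)
      rw [h4.cast_ncard_eq]
      exact h3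
    exact hBinf h5
  obtain ⟨t, ht⟩ := ht
  rw [tand_mem] at ht
  have ht0 : t ≠ 0 := by
    rintro rfl
    exact ht (zero_mem _)
  set z1 : Fin w → ℂ := t • z with hz1
  have hz1Z : z1 ∈ Z := hcone t z hz
  have hz10 : z1 ≠ 0 := smul_ne_zero ht0 hz0
  set A1 : Matrix ν (Fin w) ℂ := Matrix.of fun (j : ν) (i : Fin w) => eval z1 (A j i) with hA1
  have hAu : A1.mulVec u = 0 := by
    funext j
    have h1 : A1.mulVec u j = ∑ i, eval z1 (A j i) * u i := rfl
    rw [h1]
    have h2 : ∀ i, eval z1 (A j i) * u i = t ^ r * (eval z (A j i) * u i) := by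
      intro i
      rw [hz1, hA j i t z]
      ring
    simp only [h2]
    rw [← Finset.mul_sum, hcon j, mul_zero]
    rfl
  obtain ⟨J, hJ, hJL⟩ := tand_ker w m ν A1 (hker z1 hz1Z hz10)
  set X : Set ℂ := Set.range z1 ∪ u '' (J : Set (Fin w)) with hX
  have huX : ∀ i, u i ∈ tandK k X := by
    apply hJL (tandK k X) u
    · intro j i
      exact tand_val k z1 (A j i) (hAk j i) X Set.subset_union_left
    · exact hAu
    · intro i hi
      exact tand_sub k X (Or.inr ⟨i, hi, rfl⟩)
  obtain ⟨i0, hi0⟩ := Function.ne_iff.1 hz0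
  have hnot : z1 i0 ∉ M.closure (Set.range u) := by
    intro h
    have h1 : z1 i0 ∈ M.closure (Set.range u ∪ Set.range z) :=
      M.closure_subset_closure Set.subset_union_left h
    rw [tand_mem] at h1
    have h2 : z i0 ∈ tandK k (Set.range u ∪ Set.range z) :=
      tand_sub k _ (Or.inr ⟨i0, rfl⟩)
    apply ht
    have h3 : t = z1 i0 / z i0 := by
      rw [hz1, Pi.smul_apply, smul_eq_mul, mul_div_assoc, div_self hi0, mul_one]
    rw [h3]
    exact div_mem h1 h2
  have hnot' : z1 i0 ∉ Set.range u := by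
    intro h
    exact hnot (M.mem_closure_of_mem h)
  have hind : M.Indep (insert (z1 i0) (Set.range u)) := by
    rw [hui.insert_indep_iff]
    exact Or.inl ⟨by simp [hM], hnot⟩
  have hsub : insert (z1 i0) (Set.range u) ⊆ M.closure X := by
    intro x hx
    rcases Set.mem_insert_iff.1 hx with rfl | ⟨i, rfl⟩
    · exact (tand_mem k X _).2 (tand_sub k X (Or.inl ⟨i0, rfl⟩))
    · exact (tand_mem k X _).2 (huX i)
  have h6 := hind.encard_le_eRk_of_subset hsub
  rw [Matroid.eRk_closure_eq, Set.encard_insert_of_notMem hnot', hucard] at h6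
  have h7 : M.eRk X ≤ (m : ℕ∞) + m := by
    refine (M.eRk_union_le_eRk_add_eRk _ _).trans (add_le_add ?_ ?_)
    · apply tand_rank k w m z1
      intro e he
      obtain ⟨P, hP0, hPk, hP⟩ := hrel e he
      exact ⟨P, hP0, hPk, hP z1 hz1Z⟩
    · refine (M.eRk_le_encard _).trans ?_
      refine (Set.encard_image_le _ _).trans ?_
      rw [Set.encard_coe_eq_coe_finsetCard]
      exact_mod_cast hJ
  have h8 := h6.trans h7
  have h9 : w + 1 ≤ m + m := by exact_mod_cast h8
  omega

theorem st_TAND : ST_TAND := by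
  classical
  intro w m r ν _ Z A hw h2m hcone hrel hA hker
  choose P hP0 hP using hrel
  -- the coefficients
  let S : Set ℂ := (⋃ j, ⋃ i, ((A j i).coeffs : Set ℂ)) ∪
    ⋃ e : Fin (m + 1) → Fin w, ⋃ he : Function.Injective e, ((P e he).coeffs : Set ℂ)
  have hS : S.Countable := by
    apply Set.Countable.union
    · exact Set.countable_iUnion fun j => Set.countable_iUnion fun i =>
        (Finset.finite_toSet _).countable
    · exact Set.countable_iUnion fun e => Set.countable_iUnion fun he =>
        (Finset.finite_toSet _).countable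
  have hk : Cardinal.mk (Subfield.closure S) ≤ Cardinal.aleph0 := by
    refine (Subfield.cardinalMk_closure_le_max S).trans (max_le ?_ le_rfl)
    exact Cardinal.mk_le_aleph0_iff.2 hS.to_subtype
  apply tand_main (Subfield.closure S) hk w m r ν Z A h2m hcone _ _ hA hker
  · intro e he
    refine ⟨P e he, hP0 e he, ?_, hP e he⟩
    intro c hc
    apply Subfield.subset_closure
    refine Or.inr (Set.mem_iUnion.2 ⟨e, Set.mem_iUnion.2 ⟨he, hc⟩⟩)
  · intro j i c hc
    apply Subfield.subset_closure
    exact Or.inl (Set.mem_iUnion.2 ⟨j, Set.mem_iUnion.2 ⟨i, hc⟩⟩)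

end Pool.Agent.Helper87.TC
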